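import Pool.Agent.W2helper58.BR.Cls

/-!
# Nondeterministic exponential time relative to an oracle, and advice

(`Oracle`, `Alg`, `IsFP`, `IsPSPACE` are defined in `Pool.Agent.H620R2.Gauge.Defs`, and `IsNP` in
`Pool.Agent.W2helper58.BR.Cls`.)
-/

set_option autoImplicit false

namespace Pool.Agent.W2helper5.OB

open Pool.Agent.NPC Pool.Agent.H620R2.Gauge

/-- The language `L` is in `NEXP` relative to the oracle `A`: `x` is in `L` if and only if some
certificate `w` of length `2 ^ p(|x|)` is accepted by a verifier which works, with the oracle `A`,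
in time polynomial in the length of `⟨w, x⟩`. -/
def IsNEXP (A : Oracle) (L : Set (List Bool)) : Prop :=
  ∃ (V : List Bool → List Bool) (p : Polynomial ℕ), IsFP A V ∧
    ∀ x, x ∈ L ↔ ∃ w : List Bool, w.length = 2 ^ p.eval x.length ∧ V (pairBits w x) = [true]

/-- The language `L` is in `EXPSPACE` relative to the oracle `A`: for some polynomial `p`, the
language `L` with instances `x` padded by `2 ^ p(|x|)` bits is in `PSPACE` relative to `A`. -/
def IsEXPSPACE (A : Oracle) (L : Set (List Bool)) : Prop :=
  ∃ (L' : Set (List Bool)) (p : Polynomial ℕ), IsPSPACE A L' ∧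
    ∀ x c : List Bool, c.length = 2 ^ p.eval x.length → (x ∈ L ↔ pairBits x c ∈ L')

/-- The language `L` is in the class `C` with advice of length exactly `g`: there are a language
`B` in `C` and advice strings `f n` of length `g n` such that `x` is in `L` if and only if
`⟨x, f(|x|)⟩` is in `B`. -/
def Advice (C : Set (List Bool) → Prop) (g : ℕ → ℕ) (L : Set (List Bool)) : Prop :=
  ∃ (B : Set (List Bool)) (f : ℕ → List Bool), C B ∧ (∀ n, (f n).length = g n) ∧
    ∀ x, x ∈ L ↔ pairBits x (f x.length) ∈ B

end Pool.Agent.W2helper5.OB
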