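import Pool.Agent.W2helper58.BR.Univ
import Pool.Agent.W2helper58.NX.Base

/-!
# Oracles with chains of worlds

The special numbers are `ν 1 < ν 2 < ...`. A region belongs to every string `x` of special length:
the strings `rq x y` with `|y| = 2 ^ |x|`. For the special number `ν k` the state `st k` says how
many of the regions are not empty. The code `cd z s w` says that `z` is not in `K` in the world in
which the state for the last special number that matters for `z` is the number `s`.
-/

set_option autoImplicit false

namespace Pool.Agent.W2helper5.OB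

open Pool.Agent.NPC Pool.Agent.H620R2.Gauge Pool.Agent.W2helper58.NX Pool.Agent.W2helper58.BR

/-- the number of the last special number that matters for strings of length `m` -/
noncomputable def ix (ν : ℕ → ℕ) (m : ℕ) : ℕ := Nat.findGreatest (fun k => 2 ^ ν k < m) m

theorem ix_pos {ν : ℕ → ℕ} {m : ℕ} (h : ix ν m ≠ 0) : 2 ^ ν (ix ν m) < m :=
  Nat.findGreatest_of_ne_zero (P := fun k => 2 ^ ν k < m) (n := m) rfl h

theorem self_le {ν : ℕ → ℕ} (hν : StrictMono ν) (k : ℕ) : k < 2 ^ ν k :=
  (hν.le_apply).trans_lt Nat.lt_two_pow_self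

theorem ix_ge {ν : ℕ → ℕ} (hν : StrictMono ν) {m k : ℕ} (h : 2 ^ ν k < m) : k ≤ ix ν m :=
  Nat.le_findGreatest ((self_le hν k).trans h).le h

theorem ix_le {ν : ℕ → ℕ} (hν : StrictMono ν) {m k : ℕ} (h : m ≤ 2 ^ ν (k + 1)) : ix ν m ≤ k := by
  by_contra h1
  push Not at h1
  have h2 := ix_pos (ν := ν) (m := m) (by omega)
  have h3 : 2 ^ ν (k + 1) ≤ 2 ^ ν (ix ν m) := Nat.pow_le_pow_right (by norm_num) (hν.monotone h1)
  omega

theorem le_of_ix {ν : ℕ → ℕ} (hν : StrictMono ν) (m : ℕ) : m ≤ 2 ^ ν (ix ν m + 1) := by
  by_contra h1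
  push Not at h1
  have h2 := ix_ge hν h1
  omega

/-- the data which determine the oracle besides the states -/
structure Dat : Type where
  /-- the regions in the order in which they are filled, and their elements -/
  reg : ℕ → ℕ → List Bool × List Bool
  /-- the witnesses in the codes -/
  wit : List Bool → ℕ → List Bool

/-- the question whether `y` is in the region of `x` -/
def rq (x y : List Bool) : List Bool := false :: pairBits x y

/-- the code with the string `z`, the state `s` and the witness `w` -/
def cd (z s w : List Bool) : List Bool := true :: pairBits z (pairBits s w)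

open Classical in
/-- the oracle -/
noncomputable def orc (K : Oracle → List Bool → Bool) (ν : ℕ → ℕ) (D : Dat) :
    (ℕ → ℕ) → List Bool → Bool
  | _, [] => false
  | st, false :: r => decide ((unpair r).2.length = 2 ^ (unpair r).1.length ∧
      ∃ k j, ν k = (unpair r).1.length ∧ j < st k ∧ D.reg k j = unpair r)
  | st, true :: r => decide (valB (unpair (unpair r).2).1 ≤ st (ix ν (unpair r).1.length)) &&
      (decide ((unpair (unpair r).2).2 = D.wit (unpair r).1 (valB (unpair (unpair r).2).1)) &&
      !K (fun u => if _h : u.length ≤ (unpair r).1.length then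
        orc K ν D (Function.update st (ix ν (unpair r).1.length)
          (valB (unpair (unpair r).2).1)) u else false) (unpair r).1)
termination_by _ u => u.length
decreasing_by
  have h1 := (length_unpair_le r).1
  simp only [List.length_cons]
  omega

variable {K : Oracle → List Bool → Bool} {ν : ℕ → ℕ} {D D' : Dat}

theorem orc_nil (st : ℕ → ℕ) : orc K ν D st [] = false := by rw [orc]

theorem orc_false (st : ℕ → ℕ) (r : List Bool) : orc K ν D st (false :: r) = true ↔
    (unpair r).2.length = 2 ^ (unpair r).1.length ∧
      ∃ k j, ν k = (unpair r).1.length ∧ j < st k ∧ D.reg k j = unpair r := by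
  rw [orc]
  simp only [decide_eq_true_eq]

theorem orc_true (hK : Local K) (st : ℕ → ℕ) (r : List Bool) : orc K ν D st (true :: r) = true ↔
    valB (unpair (unpair r).2).1 ≤ st (ix ν (unpair r).1.length) ∧
      (unpair (unpair r).2).2 = D.wit (unpair r).1 (valB (unpair (unpair r).2).1) ∧
      K (orc K ν D (Function.update st (ix ν (unpair r).1.length)
          (valB (unpair (unpair r).2).1))) (unpair r).1 = false := by
  rw [orc, Bool.and_eq_true, Bool.and_eq_true, decide_eq_true_eq, decide_eq_true_eq,
    Bool.not_eq_true']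
  rw [hK _ (orc K ν D (Function.update st (ix ν (unpair r).1.length)
    (valB (unpair (unpair r).2).1))) (unpair r).1]
  intro u hu
  rw [dif_pos hu]

theorem orc_rq (st : ℕ → ℕ) (x y : List Bool) : orc K ν D st (rq x y) = true ↔
    y.length = 2 ^ x.length ∧ ∃ k j, ν k = x.length ∧ j < st k ∧ D.reg k j = (x, y) := by
  rw [rq, orc_false, unpair_pairBits]

theorem orc_cd (hK : Local K) (st : ℕ → ℕ) (z s w : List Bool) :
    orc K ν D st (cd z s w) = true ↔ valB s ≤ st (ix ν z.length) ∧ w = D.wit z (valB s) ∧
      K (orc K ν D (Function.update st (ix ν z.length) (valB s))) z = false := by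
  rw [cd, orc_true hK, unpair_pairBits]
  simp only [unpair_pairBits]

/-- The data agree for the special numbers below number `k`, and for the first `t` states for the
special number number `k`. -/
structure Agree (ν : ℕ → ℕ) (D D' : Dat) (k t : ℕ) : Prop where
  low_reg : ∀ i < k, ∀ j, D.reg i j = D'.reg i j
  low_wit : ∀ z j, ix ν z.length < k → D.wit z j = D'.wit z j
  reg : ∀ j < t, D.reg k j = D'.reg k j
  wit : ∀ z j, ix ν z.length = k → j ≤ t → D.wit z j = D'.wit z j

theorem Agree.refl (ν : ℕ → ℕ) (D : Dat) (k t : ℕ) : Agree ν D D k t :=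
  ⟨fun _ _ _ => rfl, fun _ _ _ => rfl, fun _ _ => rfl, fun _ _ _ _ => rfl⟩

theorem Agree.low {k t i : ℕ} (h : Agree ν D D' k t) (hi : i < k) (v : ℕ) : Agree ν D D' i v :=
  ⟨fun l hl j => h.low_reg l (hl.trans hi) j, fun z j hz => h.low_wit z j (hz.trans hi),
    fun j _ => h.low_reg i hi j, fun z j hz _ => h.low_wit z j (hz ▸ hi)⟩

theorem Agree.mono {k t v : ℕ} (h : Agree ν D D' k t) (hv : v ≤ t) : Agree ν D D' k v :=
  ⟨h.low_reg, h.low_wit, fun j hj => h.reg j (by omega), fun z j hz hj => h.wit z j hz (by omega)⟩

theorem upd_low {st st' : ℕ → ℕ} {k i v : ℕ} (h : ∀ l < k, st l = st' l) (hi : i ≤ k) :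
    ∀ l < i, Function.update st i v l = Function.update st' i v l := by
  intro l hl
  rw [Function.update_of_ne hl.ne, Function.update_of_ne hl.ne]
  exact h l (by omega)

/-- **The answers depend on the past only.** -/
theorem dep_eq (hν : StrictMono ν) (hK : Local K) : ∀ (n k t : ℕ) (st st' : ℕ → ℕ),
    Agree ν D D' k t → (∀ i < k, st i = st' i) → st k = t → st' k = t → ∀ u : List Bool,
      u.length ≤ n → u.length ≤ 2 ^ ν (k + 1) → orc K ν D st u = orc K ν D' st' u := by
  intro n
  induction n with
  | zero =>
    intro k t st st' _ _ _ _ u hu _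
    have : u = [] := List.length_eq_zero_iff.1 (by omega)
    rw [this, orc_nil, orc_nil]
  | succ n ih =>
    intro k t st st' hA hst h1 h2 u hu hu2
    match u with
    | [] => rw [orc_nil, orc_nil]
    | false :: r =>
      rw [Bool.eq_iff_iff, orc_false, orc_false]
      refine and_congr_right fun h3 => ?_
      have h4 := length_unpair_le r
      rw [List.length_cons] at hu2
      refine exists_congr fun i => exists_congr fun j => and_congr_right fun h5 => ?_
      have h6 : 2 ^ ν i < 2 ^ ν (k + 1) := by
        rw [h5]
        omega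
      have h7 : i < k + 1 := hν.lt_iff_lt.1 ((Nat.pow_lt_pow_iff_right (by norm_num)).1 h6)
      rcases Nat.lt_succ_iff_lt_or_eq.1 h7 with h8 | h8
      · rw [hst i h8, hA.low_reg i h8 j]
      · subst h8
        rw [h1, h2]
        exact and_congr_right fun h9 => by rw [hA.reg j h9]
    | true :: r =>
      rw [Bool.eq_iff_iff, orc_true hK, orc_true hK]
      have h4 := (length_unpair_le r).1
      rw [List.length_cons] at hu hu2
      obtain ⟨z, hz⟩ : ∃ z, z = (unpair r).1 := ⟨_, rfl⟩
      obtain ⟨v, hv⟩ : ∃ v, v = valB (unpair (unpair r).2).1 := ⟨_, rfl⟩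
      rw [← hz] at h4 ⊢
      rw [← hv]
      have h5 : ix ν z.length ≤ k := ix_le hν (by omega)
      have key : Agree ν D D' (ix ν z.length) v →
          K (orc K ν D (Function.update st (ix ν z.length) v)) z =
            K (orc K ν D' (Function.update st' (ix ν z.length) v)) z := by
        intro h6
        refine hK _ _ _ fun u' hu' => ?_
        refine ih (ix ν z.length) v _ _ h6 (upd_low hst h5) (by simp) (by simp) u' (by omega)
          (hu'.trans (le_of_ix hν _))
      rcases h5.lt_or_eq with h6 | h6
      · rw [hst _ h6, hA.low_wit z v h6, key (hA.low h6 v)]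
      · rw [h6] at key ⊢
        rw [h1, h2]
        refine and_congr_right fun h7 => ?_
        rw [hA.wit z v h6 h7, key (hA.mono h7)]

/-- **One more state.** -/
theorem dep_ne (hν : StrictMono ν) (hK : Local K) {k t : ℕ} {st st' : ℕ → ℕ}
    (hA : Agree ν D D' k t) (hst : ∀ i < k, st i = st' i) (h1 : st k = t) (h2 : st' k = t + 1)
    {u : List Bool} (hu2 : u.length ≤ 2 ^ ν (k + 1))
    (hr : ∀ r, u = false :: r → unpair r ≠ D'.reg k t)
    (hw : ∀ r, u = true :: r → ix ν (unpair r).1.length = k →
      (unpair (unpair r).2).2 ≠ D'.wit (unpair r).1 (t + 1)) :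
    orc K ν D st u = orc K ν D' st' u := by
  match u with
  | [] => rw [orc_nil, orc_nil]
  | false :: r =>
    rw [Bool.eq_iff_iff, orc_false, orc_false]
    refine and_congr_right fun h3 => ?_
    have h4 := length_unpair_le r
    rw [List.length_cons] at hu2
    refine exists_congr fun i => exists_congr fun j => and_congr_right fun h5 => ?_
    have h6 : 2 ^ ν i < 2 ^ ν (k + 1) := by
      rw [h5]
      omega
    have h7 : i < k + 1 := hν.lt_iff_lt.1 ((Nat.pow_lt_pow_iff_right (by norm_num)).1 h6)
    rcases Nat.lt_succ_iff_lt_or_eq.1 h7 with h8 | h8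
    · rw [hst i h8, hA.low_reg i h8 j]
    · subst h8
      rw [h1, h2]
      constructor
      · rintro ⟨h9, h10⟩
        exact ⟨by omega, by rw [← hA.reg j h9]; exact h10⟩
      · rintro ⟨h9, h10⟩
        have h11 : j ≠ t := by
          rintro rfl
          exact hr r rfl h10.symm
        exact ⟨by omega, by rw [hA.reg j (by omega)]; exact h10⟩
  | true :: r =>
    rw [Bool.eq_iff_iff, orc_true hK, orc_true hK]
    have h4 := (length_unpair_le r).1
    rw [List.length_cons] at hu2
    have hw' := hw r rfl
    obtain ⟨z, hz⟩ : ∃ z, z = (unpair r).1 := ⟨_, rfl⟩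
    obtain ⟨v, hv⟩ : ∃ v, v = valB (unpair (unpair r).2).1 := ⟨_, rfl⟩
    rw [← hz] at h4 hw' ⊢
    rw [← hv]
    have h5 : ix ν z.length ≤ k := ix_le hν (by omega)
    have key : Agree ν D D' (ix ν z.length) v →
        K (orc K ν D (Function.update st (ix ν z.length) v)) z =
          K (orc K ν D' (Function.update st' (ix ν z.length) v)) z := by
      intro h6
      refine hK _ _ _ fun u' hu' => ?_
      exact dep_eq hν hK z.length (ix ν z.length) v _ _ h6 (upd_low hst h5) (by simp) (by simp)
        u' hu' (hu'.trans (le_of_ix hν _))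
    rcases h5.lt_or_eq with h6 | h6
    · rw [hst _ h6, hA.low_wit z v h6, key (hA.low h6 v)]
    · rw [h6] at key ⊢
      rw [h1, h2]
      constructor
      · rintro ⟨h7, h8, h9⟩
        refine ⟨by omega, ?_, ?_⟩
        · rw [← hA.wit z v h6 h7]
          exact h8
        · rw [← key (hA.mono h7)]
          exact h9
      · rintro ⟨h7, h8, h9⟩
        have h10 : v ≠ t + 1 := by
          intro h10
          rw [h10] at h8
          exact hw' h6 h8
        have h11 : v ≤ t := by omega
        refine ⟨h11, ?_, ?_⟩
        · rw [hA.wit z v h6 h11]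
          exact h8
        · rw [key (hA.mono h11)]
          exact h9

end Pool.Agent.W2helper5.OB
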