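import Pool.Agent.W2helper5.OB.Stage

/-!
# All stages
-/

set_option autoImplicit false

namespace Pool.Agent.W2helper5.OB

open Pool.Agent.NPC Pool.Agent.H620R2.Gauge Pool.Agent.W2helper58.NX Pool.Agent.W2helper58.BR

theorem poly_le_pow (P : Polynomial ℕ) : ∃ d, ∀ m ≥ 2, P.eval m ≤ m ^ d := by
  induction P using Polynomial.induction_on' with
  | add p q hp hq =>
    obtain ⟨d, hd⟩ := hp
    obtain ⟨e, he⟩ := hq
    refine ⟨max d e + 1, fun m hm => ?_⟩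
    have h1 : m ^ d ≤ m ^ max d e := Nat.pow_le_pow_right (by omega) (le_max_left _ _)
    have h2 : m ^ e ≤ m ^ max d e := Nat.pow_le_pow_right (by omega) (le_max_right _ _)
    have h3 := hd m hm
    have h4 := he m hm
    rw [Polynomial.eval_add, pow_succ]
    nlinarith
  | monomial k c =>
    refine ⟨c + k, fun m hm => ?_⟩
    rw [Polynomial.eval_monomial, pow_add]
    refine Nat.mul_le_mul_right _ ?_
    exact (Nat.lt_two_pow_self.le).trans (Nat.pow_le_pow_left hm c)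

theorem growth (P p : Polynomial ℕ) : ∃ N, ∀ n ≥ N, 2 ^ n * P.eval (inp p n) < 2 ^ 2 ^ n := by
  obtain ⟨d, hd⟩ := poly_le_pow P
  obtain ⟨N, hN⟩ := poly_lt_two_pow (Polynomial.X + Polynomial.C d *
    (p.comp (Polynomial.C 3 * Polynomial.X + Polynomial.C 1) + Polynomial.C 3 * Polynomial.X +
      Polynomial.C 3) + Polynomial.C 1) 1
  refine ⟨N, fun n hn => ?_⟩
  have h1 := hN n hn
  simp only [Polynomial.eval_add, Polynomial.eval_mul, Polynomial.eval_comp, Polynomial.eval_C,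
    Polynomial.eval_X, one_mul] at h1
  obtain ⟨e, he⟩ : ∃ e, e = p.eval (3 * n + 1) := ⟨_, rfl⟩
  have h2 : inp p n ≤ 2 ^ (e + 3 * n + 3) := by
    rw [inp, ← he]
    have h3 : 2 ^ (e + 3 * n + 3) = 8 * (2 ^ e * 2 ^ (3 * n)) := by
      rw [pow_add, pow_add]
      ring
    have h4 : 3 * n < 2 ^ (3 * n) := Nat.lt_two_pow_self
    have h5 : 1 ≤ 2 ^ e := Nat.one_le_two_pow
    have h6 : 2 ^ e ≤ 2 ^ e * 2 ^ (3 * n) := Nat.le_mul_of_pos_right _ (by positivity)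
    have h7 : 2 ^ (3 * n) ≤ 2 ^ e * 2 ^ (3 * n) := Nat.le_mul_of_pos_left _ (by positivity)
    omega
  have h3 : P.eval (inp p n) ≤ 2 ^ ((e + 3 * n + 3) * d) := by
    refine (hd _ (by unfold inp; omega)).trans ?_
    rw [pow_mul]
    exact Nat.pow_le_pow_left h2 d
  calc 2 ^ n * P.eval (inp p n) ≤ 2 ^ n * 2 ^ ((e + 3 * n + 3) * d) := Nat.mul_le_mul_left _ h3
    _ = 2 ^ (n + (e + 3 * n + 3) * d) := by rw [pow_add]
    _ < 2 ^ 2 ^ n := by
      apply Nat.pow_lt_pow_right (by norm_num)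
      rw [← he] at h1
      rw [mul_comm]
      omega

/-- the special numbers -/
structure Spec (a : ℕ → ℕ) (en : ℕ → Alg × Polynomial ℕ) (ν : ℕ → ℕ) : Prop where
  mono : StrictMono ν
  c1 : ∀ k, a (ν (k + 1)) < ν (k + 1)
  c2 : ∀ k, 2 ^ ν (k + 1) * (en k).1.p.eval (inp (en k).2 (ν (k + 1))) < 2 ^ 2 ^ ν (k + 1)
  c3 : ∀ k, (qlen (en k).1).eval (inp (en k).2 (ν (k + 1))) ≤ 2 ^ ν (k + 1 + 1)
  c4 : ∀ k, 2 * ν (k + 1) + 2 + 2 ^ ν (k + 1) ≤ 2 ^ ν (k + 1 + 1)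

theorem exists_spec {a : ℕ → ℕ} (ha : ∀ N, ∃ n ≥ N, a n < n) (en : ℕ → Alg × Polynomial ℕ) :
    ∃ ν, Spec a en ν := by
  have h1 : ∀ k m : ℕ, ∃ n, m < n ∧ a n < n ∧
      2 ^ n * (en k).1.p.eval (inp (en k).2 n) < 2 ^ 2 ^ n ∧
      (qlen (en (k - 1)).1).eval (inp (en (k - 1)).2 m) ≤ n ∧ 2 * m + 2 + 2 ^ m ≤ n := by
    intro k m
    obtain ⟨N, hN⟩ := growth (en k).1.p (en k).2
    obtain ⟨E, hE⟩ : ∃ E, E = (qlen (en (k - 1)).1).eval (inp (en (k - 1)).2 m) := ⟨_, rfl⟩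
    obtain ⟨E', hE'⟩ : ∃ E', E' = 2 ^ m := ⟨_, rfl⟩
    rw [← hE, ← hE']
    obtain ⟨n, hn, han⟩ := ha (N + (m + 1) + E + (2 * m + 2 + E'))
    exact ⟨n, by omega, han, hN n (by omega), by omega, by omega⟩
  choose f hf1 hf2 hf3 hf4 hf5 using h1
  obtain ⟨ν, hν0, hν⟩ : ∃ ν : ℕ → ℕ, ν 0 = 0 ∧ ∀ k, ν (k + 1) = f k (ν k) :=
    ⟨fun n => Nat.rec 0 (fun k m => f k m) n, rfl, fun _ => rfl⟩
  refine ⟨ν, strictMono_nat_of_lt_succ fun k => by rw [hν]; exact hf1 _ _, fun k => ?_,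
    fun k => ?_, fun k => ?_, fun k => ?_⟩
  · rw [hν]; exact hf2 _ _
  · rw [hν]; exact hf3 _ _
  · rw [hν (k + 1)]
    have h2 := hf4 (k + 1) (ν (k + 1))
    exact h2.trans Nat.lt_two_pow_self.le
  · rw [hν (k + 1)]
    have h2 := hf5 (k + 1) (ν (k + 1))
    exact h2.trans Nat.lt_two_pow_self.le

theorem Win.transfer {A A' : Oracle} {n a B : ℕ} {M : Alg} {p : Polynomial ℕ} (ha : a ≤ n)
    (hB : (qlen M).eval (inp p n) ≤ B) (hB' : 2 * n + 2 + 2 ^ n ≤ B)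
    (h : ∀ u : List Bool, u.length ≤ B → A u = A' u) (hW : Win A n a M p) : Win A' n a M p := by
  intro α hα
  obtain ⟨x, hx, h1⟩ := hW α hα
  refine ⟨x, hx, fun h2 => h1 ?_⟩
  have h3 : InE A x ↔ InE A' x := by
    unfold InE
    refine not_congr (exists_congr fun y => and_congr_right fun hy => ?_)
    rw [h]
    rw [rq, List.length_cons, length_pairBits, hy, hx]
    omega
  have h4 : AccE A M p (pairBits x α) ↔ AccE A' M p (pairBits x α) := by
    unfold AccE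
    refine exists_congr fun w => and_congr_right fun hw => ?_
    have hin := length_inp (p := p) hx (hα.trans ha) hw
    obtain ⟨Q, _, hQ2, hQ3⟩ := qlen_spec M A (pairBits w (pairBits x α))
    rw [hQ3 A' fun q hq => (h q ((hQ2 q hq).trans ((eval_mono _ hin).trans hB))).symm]
  rw [h3, h4]
  exact h2

theorem limit {K : Oracle → List Bool → Bool} (hK : Local K) {a : ℕ → ℕ}
    {en : ℕ → Alg × Polynomial ℕ} {ν : ℕ → ℕ} (hS : Spec a en ν) :
    ∃ (D : Dat) (st : ℕ → ℕ), Good D ∧ st 0 = 0 ∧ (∀ k, st (k + 1) < 2 ^ (a (ν (k + 1)) + 1)) ∧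
      ∀ k, Win (orc K ν D st) (ν (k + 1)) (a (ν (k + 1))) (en k).1 (en k).2 := by
  classical
  have stg : ∀ (q : {q : Dat × (ℕ → ℕ) // Good q.1}) (k : ℕ), ∃ (D : Dat) (t : ℕ), Good D ∧
      Below ν q.1.1 D (k + 1) ∧ t < 2 ^ (a (ν (k + 1)) + 1) ∧
      Win (orc K ν D (Function.update q.1.2 (k + 1) t)) (ν (k + 1)) (a (ν (k + 1)))
        (en k).1 (en k).2 := fun q k =>
    stage hS.mono hK q.2 (Nat.succ_ne_zero k) (hS.c1 k) (hS.c2 k) (hS.c3 k)
  choose Df tf hf1 hf2 hf3 hf4 using stg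
  obtain ⟨init, hinit⟩ : ∃ init : {q : Dat × (ℕ → ℕ) // Good q.1},
      init = ⟨(⟨fun _ _ => ([], []), fun z _ => z⟩, fun _ => 0), fun _ _ => rfl⟩ := ⟨_, rfl⟩
  obtain ⟨sq, hsq0, hsq⟩ : ∃ sq : ℕ → {q : Dat × (ℕ → ℕ) // Good q.1}, sq 0 = init ∧
      ∀ k, sq (k + 1) = ⟨(Df (sq k) k, Function.update (sq k).1.2 (k + 1) (tf (sq k) k)),
        hf1 (sq k) k⟩ :=
    ⟨fun n => Nat.rec init
      (fun k q => ⟨(Df q k, Function.update q.1.2 (k + 1) (tf q k)), hf1 q k⟩) n,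
      rfl, fun _ => rfl⟩
  have hD : ∀ k, (sq (k + 1)).1.1 = Df (sq k) k := fun k => by rw [hsq k]
  have hst : ∀ k, (sq (k + 1)).1.2 = Function.update (sq k).1.2 (k + 1) (tf (sq k) k) :=
    fun k => by rw [hsq k]
  -- the data for small special numbers are not changed any more
  have hB : ∀ k d, Below ν (sq k).1.1 (sq (k + d)).1.1 (k + 1) := by
    intro k d
    induction d with
    | zero => exact ⟨fun _ _ _ => rfl, fun _ _ _ => rfl⟩
    | succ d ih =>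
      refine ih.trans ?_
      rw [← Nat.add_assoc, hD]
      have h1 := hf2 (sq (k + d)) (k + d)
      exact ⟨fun i hi j => h1.1 i (by omega) j, fun z j hz => h1.2 z j (by omega)⟩
  have hstB : ∀ k d, ∀ i ≤ k, (sq (k + d)).1.2 i = (sq k).1.2 i := by
    intro k d i hi
    induction d with
    | zero => rfl
    | succ d ih =>
      rw [← Nat.add_assoc, hst, Function.update_of_ne (by omega)]
      exact ih
  obtain ⟨D, hDD⟩ : ∃ D : Dat, D = ⟨fun i j => (sq i).1.1.reg i j,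
    fun z j => (sq (ix ν z.length)).1.1.wit z j⟩ := ⟨_, rfl⟩
  obtain ⟨st, hstt⟩ : ∃ st : ℕ → ℕ, st = fun i => (sq i).1.2 i := ⟨_, rfl⟩
  have hBD : ∀ k, Below ν (sq k).1.1 D (k + 1) := by
    intro k
    refine ⟨fun i hi j => ?_, fun z j hz => ?_⟩
    · obtain ⟨d, hd⟩ := Nat.exists_eq_add_of_le (show i ≤ k by omega)
      rw [hDD, hd]
      exact ((hB i d).1 i (Nat.lt_succ_self i) j).symm
    · obtain ⟨d, hd⟩ := Nat.exists_eq_add_of_le (show ix ν z.length ≤ k by omega)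
      rw [hDD, hd]
      exact ((hB (ix ν z.length) d).2 z j (Nat.lt_succ_self _)).symm
  have hBst : ∀ k, ∀ i ≤ k, (sq k).1.2 i = st i := by
    intro k i hi
    obtain ⟨d, hd⟩ := Nat.exists_eq_add_of_le hi
    rw [hstt, hd]
    exact hstB i d i le_rfl
  refine ⟨D, st, ?_, ?_, ?_, ?_⟩
  · intro z j
    rw [hDD]
    exact (sq (ix ν z.length)).2 z j
  · rw [hstt]
    simp only
    rw [hsq0, hinit]
  · intro k
    rw [hstt]
    simp only
    rw [hst, Function.update_self]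
    exact hf3 _ _
  · intro k
    refine (hf4 (sq k) k).transfer (hS.c1 k).le (hS.c3 k) (hS.c4 k) fun u hu => ?_
    have h1 := hBD (k + 1)
    rw [hD] at h1
    refine dep_eq hS.mono hK u.length (k + 1) (tf (sq k) k) _ _
      ⟨fun i hi j => h1.1 i (by omega) j, fun z j hz => h1.2 z j (by omega),
        fun j _ => h1.1 (k + 1) (Nat.lt_succ_self _) j,
        fun z j hz _ => h1.2 z j (by omega)⟩ (fun i hi => ?_) (by simp) ?_ u le_rfl hu
    · rw [← hst]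
      exact hBst (k + 1) i (by omega)
    · rw [← hBst (k + 1) (k + 1) le_rfl, hst, Function.update_self]

end Pool.Agent.W2helper5.OB
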