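import Pool.Agent.W2helper58.BR.Univ

/-!
# A universal language for polynomial space
-/

set_option autoImplicit false

namespace Pool.Agent.W2helper5.OB

open Pool.Agent.NPC Pool.Agent.H620R2.Gauge Pool.Agent.W2helper58.BR

/-- the enumeration of the machines -/
noncomputable def gE : ℕ → SAlg × Polynomial ℕ := CC.exists_enum.choose

theorem gE_surj : Function.Surjective gE := CC.exists_enum.choose_spec

/-- the bound for the lengths of the questions -/
noncomputable def bE (e : ℕ) : Polynomial ℕ := (CC.act_length (gE e).1 (gE e).2).choose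

theorem bE_spec (e : ℕ) : ∀ x a : List Bool, a.length ≤ (gE e).2.eval x.length →
    ((gE e).1.act (pairBits x a)).length ≤ (bE e).eval x.length :=
  (CC.act_length (gE e).1 (gE e).2).choose_spec

open Classical in
/-- the universal language -/
noncomputable def PK (A : Oracle) (y : List Bool) : Bool :=
  decide (∃ (e : ℕ) (x : List Bool), y = code bE e x ∧
    CC.Acc (gE e).1 (CC.cut ((bE e).eval x.length) A) x)

theorem PK_code (A : Oracle) (e : ℕ) (x : List Bool) : PK A (code bE e x) = true ↔
    CC.Acc (gE e).1 (CC.cut ((bE e).eval x.length) A) x := by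
  classical
  unfold PK
  rw [decide_eq_true_eq]
  constructor
  · rintro ⟨e', x', h1, h2⟩
    obtain ⟨rfl, rfl⟩ := CC.code_inj bE h1
    exact h2
  · intro h
    exact ⟨e, x, rfl, h⟩

theorem PK_local : Local PK := by
  classical
  intro A A' y h
  unfold PK
  congr 1
  apply propext
  refine exists_congr fun e => exists_congr fun x => and_congr_right fun h1 => ?_
  have h2 : CC.cut ((bE e).eval x.length) A = CC.cut ((bE e).eval x.length) A' := by
    funext z
    unfold CC.cut
    split_ifs with hz
    · apply h
      rw [h1]
      exact hz.trans (CC.lt_length_code bE e x).le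
    · rfl
  rw [h2]

/-- each language in `PSPACE` reduces to the universal language -/
theorem exists_PK {A : Oracle} {L : Set (List Bool)} (hL : IsPSPACE A L) :
    ∃ e, ∀ x, x ∈ L ↔ PK A (code bE e x) = true := by
  obtain ⟨M, p, hM⟩ := hL
  obtain ⟨e, he⟩ := gE_surj (M, p)
  refine ⟨e, fun x => ?_⟩
  rw [PK_code]
  have hbe := bE_spec e
  rw [he] at hbe ⊢
  obtain ⟨hM1, s, z, hs, hz, hL⟩ := hM x
  have hcong : ∀ s, M.Reach (CC.cut ((bE e).eval x.length) A) x s ↔ M.Reach A x s := by
    refine CC.reach_congr (fun s => s.length ≤ p.eval x.length) hM1 ?_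
    intro s q h1 h2
    have h3 := hbe x s h1
    rw [h2, List.length_cons] at h3
    unfold CC.cut
    rw [if_pos (by omega)]
  constructor
  · intro hx
    refine ⟨s, (hcong s).2 hs, ?_⟩
    rw [hz, hL.1 hx]
  · rintro ⟨t, ht, ht2⟩
    have hst := CC.reach_unique hs ((hcong t).1 ht) ⟨_, hz⟩ ⟨_, ht2⟩
    rw [hst, ht2] at hz
    simp only [List.cons.injEq, true_and] at hz
    exact hL.2 hz.symm

/-- the combined universal language -/
noncomputable def KK (A : Oracle) : List Bool → Bool
  | [] => false
  | true :: z => UK A z
  | false :: z => !PK A z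

theorem KK_local : Local KK := by
  intro A A' y h
  match y with
  | [] => rfl
  | true :: z => exact UK_local A A' z fun u hu => h u (by rw [List.length_cons]; omega)
  | false :: z =>
    change (!PK A z) = (!PK A' z)
    rw [PK_local A A' z fun u hu => h u (by rw [List.length_cons]; omega)]

end Pool.Agent.W2helper5.OB
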