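import Pool.Agent.W2helper5.OB.Upper
import Pool.Agent.W2helper5.OB.PS

/-!
# Complements with advice, relative to the oracle
-/

set_option autoImplicit false

namespace Pool.Agent.W2helper5.OB

open Pool.Agent.NPC Pool.Agent.H620R2.Gauge Pool.Agent.W2helper58.BR
open Pool.Agent.W2helper58.NX (length_unpair_le)

variable {K : Oracle → List Bool → Bool} {ν : ℕ → ℕ} {D : Dat} {st : ℕ → ℕ} {a : ℕ → ℕ}

theorem st_lt (ha : Monotone a) (h0 : st 0 = 0) (hst : ∀ k, st (k + 1) < 2 ^ (a (ν (k + 1)) + 1))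
    {m c : ℕ} (hc : ∀ k, 2 ^ ν k < m → ν k ≤ c) : st (ix ν m) < 2 ^ (a c + 1) := by
  rcases Nat.eq_zero_or_pos (ix ν m) with h | h
  · rw [h, h0]
    positivity
  · have h1 := hc _ (ix_pos (ν := ν) (m := m) (by omega))
    obtain ⟨k, hk⟩ : ∃ k, ix ν m = k + 1 := ⟨ix ν m - 1, by omega⟩
    rw [hk] at h1 ⊢
    refine (hst k).trans_le (Nat.pow_le_pow_right (by norm_num) ?_)
    have := ha h1
    omega

/-- the languages which the codes put into `NP` with advice -/
theorem np_upper (hK : Local K) (ha : Monotone a) (h0 : st 0 = 0)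
    (hst : ∀ k, st (k + 1) < 2 ^ (a (ν (k + 1)) + 1)) (hD : Good D) {L : Set (List Bool)}
    {r : List Bool → List Bool} (hr : Poly r) {q : Polynomial ℕ}
    (hrq : ∀ x, (r x).length = q.eval x.length)
    (hL : ∀ x, x ∈ L ↔ K (orc K ν D st) (r x) = false) :
      Advice (IsNP (orc K ν D st)) (fun n => a (Nat.log 2 (q.eval n)) + 1) L := by
  obtain ⟨Q, hQ⟩ : ∃ Q : List Bool → List (List Bool), Q = fun y =>
      [cd (r (unpair (unpair y).2).1) (unpair (unpair y).2).2 (unpair y).1] := ⟨_, rfl⟩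
  have hy1 : Poly (fun y : List Bool => (unpair y).1) := Poly.fst poly_unpair
  have hy2 : Poly (fun y : List Bool => (unpair y).2) := Poly.snd poly_unpair
  have hQp : Poly Q := by
    rw [hQ]
    unfold cd
    exact NPC.Poly.cons (NPC.Poly.cons (NPC.Poly.const _) (H622R2.poly_pairBits
      (hr.comp (hy1.comp hy2)) (H622R2.poly_pairBits (hy2.comp hy2) hy1)))
      (NPC.Poly.const _)
  have hVt := IsFP.tt (A := orc K ν D st) (H := fun q => q.2) hQp (NPC.Poly.snd NPC.Poly.id)
  refine ⟨{y | ∃ w : List Bool, w.length ≤ q.eval y.length ∧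
    (Q (pairBits w y)).map (orc K ν D st) = [true]},
    fun n => wr (a (Nat.log 2 (q.eval n)) + 1) (st (ix ν (q.eval n))),
    ⟨_, q, hVt, fun x => Iff.rfl⟩, fun n => ?_, fun x => ?_⟩
  · refine length_wr (st_lt ha h0 hst fun k hk => ?_)
    exact Nat.le_log_of_pow_le (by norm_num) hk.le
  · beta_reduce
    have hs := valB_wr (a (Nat.log 2 (q.eval x.length)) + 1) (st (ix ν (q.eval x.length)))
    obtain ⟨s, hs'⟩ : ∃ s, s = wr (a (Nat.log 2 (q.eval x.length)) + 1)
      (st (ix ν (q.eval x.length))) := ⟨_, rfl⟩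
    rw [← hs'] at hs ⊢
    rw [← hrq] at hs
    have hci := code_iff (ν := ν) (D := D) (st := st) hK (r x)
    rw [hL, Set.mem_ofPred_eq]
    rw [hQ]
    simp only [unpair_pairBits, List.map_cons, List.map_nil, List.cons.injEq, and_true]
    constructor
    · intro h1
      obtain ⟨w, hw, h2⟩ := hci.1.1 h1
      refine ⟨w, ?_, h2 s hs⟩
      rw [hw, hD, hrq, length_pairBits]
      exact eval_mono q (by omega)
    · rintro ⟨w, _, h1⟩
      exact hci.2 s w hs h1

/-- the languages which the codes put into `NEXP` with advice -/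
theorem nexp_upper (hK : Local K) (ha : Monotone a) (h0 : st 0 = 0)
    (hst : ∀ k, st (k + 1) < 2 ^ (a (ν (k + 1)) + 1)) (hD : Good D) {L : Set (List Bool)}
    {r : List Bool → List Bool} (hr : Poly r) {q₀ : Polynomial ℕ}
    (hrq : ∀ x, (r x).length = q₀.eval x.length) (p : Polynomial ℕ)
    (hL : ∀ x c : List Bool, c.length = 2 ^ p.eval x.length →
      (x ∈ L ↔ K (orc K ν D st) (r (pairBits x c)) = false)) : ∃ q : Polynomial ℕ,
      Advice (IsNEXP (orc K ν D st)) (fun n => a (q.eval n) + 1) L := by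
  have hy1 : Poly (fun y : List Bool => (unpair y).1) := Poly.fst poly_unpair
  have hy2 : Poly (fun y : List Bool => (unpair y).2) := Poly.snd poly_unpair
  -- the length of the code
  obtain ⟨m, hm⟩ : ∃ m : ℕ → ℕ, m = fun n => q₀.eval (2 * n + 1 + 2 ^ p.eval n) := ⟨_, rfl⟩
  obtain ⟨q, hq⟩ : ∃ q : Polynomial ℕ, ∀ n, m n ≤ 2 ^ q.eval n := by
    obtain ⟨d, hd⟩ := poly_le_pow q₀
    refine ⟨Polynomial.C d * (p + Polynomial.C 2 * Polynomial.X + Polynomial.C 1), fun n => ?_⟩
    have h1 : 1 ≤ 2 ^ p.eval n := Nat.one_le_two_pow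
    have h2 := hd (2 * n + 1 + 2 ^ p.eval n) (by omega)
    simp only [Polynomial.eval_add, Polynomial.eval_mul, Polynomial.eval_X, Polynomial.eval_C]
    have h3 : 2 * n + 1 + 2 ^ p.eval n ≤ 2 ^ (p.eval n + 2 * n + 1) := by
      have h4 : 2 ^ (p.eval n + 2 * n + 1) = 2 * (2 ^ p.eval n * 2 ^ (2 * n)) := by
        rw [pow_add, pow_add]
        ring
      have h5 : 2 * n < 2 ^ (2 * n) := Nat.lt_two_pow_self
      have h6 : 2 ^ p.eval n ≤ 2 ^ p.eval n * 2 ^ (2 * n) :=
        Nat.le_mul_of_pos_right _ (by positivity)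
      have h7 : 2 ^ (2 * n) ≤ 2 ^ p.eval n * 2 ^ (2 * n) :=
        Nat.le_mul_of_pos_left _ (by positivity)
      omega
    calc m n ≤ (2 * n + 1 + 2 ^ p.eval n) ^ d := by rw [hm]; exact h2
      _ ≤ (2 ^ (p.eval n + 2 * n + 1)) ^ d := Nat.pow_le_pow_left h3 d
      _ = 2 ^ (d * (p.eval n + 2 * n + 1)) := by rw [← pow_mul, mul_comm]
  obtain ⟨Q, hQ⟩ : ∃ Q : List Bool → List (List Bool), Q = fun y =>
      [cd (r (pairBits (unpair (unpair y).2).1 (unpair (unpair y).1).1))
        (unpair (unpair y).2).2 (unpair (unpair y).1).2] := ⟨_, rfl⟩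
  obtain ⟨H, hH⟩ : ∃ H : List Bool × List Bool → List Bool, H = fun r =>
      if (unpair (unpair r.1).1).1.length = 2 ^ p.eval (unpair (unpair r.1).2).1.length then
        r.2 else [] := ⟨_, rfl⟩
  have hQp : Poly Q := by
    rw [hQ]
    unfold cd
    exact NPC.Poly.cons (NPC.Poly.cons (NPC.Poly.const _) (H622R2.poly_pairBits
      (hr.comp (H622R2.poly_pairBits (hy1.comp hy2) (hy1.comp hy1)))
      (H622R2.poly_pairBits (hy2.comp hy2) (hy2.comp hy1))))
      (NPC.Poly.const _)
  have hHp : Poly H := by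
    rw [hH]
    exact NPC.Poly.ite (NPC.Poly.decide_eq
      (NPC.Poly.length ((hy1.comp hy1).comp (NPC.Poly.fst NPC.Poly.id)))
      (Poly.npow (NPC.Poly.const 2)
        ((UPoly.length ((hy1.comp hy2).comp (NPC.Poly.fst NPC.Poly.id))).eval p)))
      (NPC.Poly.snd NPC.Poly.id) (NPC.Poly.const _)
  have hVt := IsFP.tt (A := orc K ν D st) hQp hHp
  obtain ⟨P, hP⟩ : ∃ P : Polynomial ℕ, P = p + q + Polynomial.C 2 := ⟨_, rfl⟩
  refine ⟨q, {y | ∃ w : List Bool, w.length ≤ 2 ^ P.eval y.length ∧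
    H (pairBits w y, (Q (pairBits w y)).map (orc K ν D st)) = [true]},
    fun n => wr (a (q.eval n) + 1) (st (ix ν (m n))),
    isNEXP_of hVt P fun x => Iff.rfl, fun n => ?_, fun x => ?_⟩
  · refine length_wr (st_lt ha h0 hst fun k hk => ?_)
    exact ((Nat.pow_lt_pow_iff_right (by norm_num)).1 (hk.trans_le (hq n))).le
  · beta_reduce
    have hs := valB_wr (a (q.eval x.length) + 1) (st (ix ν (m x.length)))
    obtain ⟨s, hs'⟩ : ∃ s, s = wr (a (q.eval x.length) + 1) (st (ix ν (m x.length))) := ⟨_, rfl⟩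
    rw [← hs'] at hs ⊢
    have hlen : ∀ c : List Bool, c.length = 2 ^ p.eval x.length →
        (r (pairBits x c)).length = m x.length := by
      intro c hc
      rw [hrq, hm, length_pairBits, hc]
    rw [Set.mem_ofPred_eq]
    rw [hQ, hH]
    simp only [unpair_pairBits, List.map_cons, List.map_nil]
    constructor
    · intro h1
      obtain ⟨c, hc⟩ : ∃ c : List Bool, c.length = 2 ^ p.eval x.length :=
        ⟨List.replicate _ false, List.length_replicate⟩
      rw [hL x c hc] at h1
      have hci := code_iff (ν := ν) (D := D) (st := st) hK (r (pairBits x c))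
      obtain ⟨w, hw, h2⟩ := hci.1.1 h1
      rw [hlen c hc] at h2
      refine ⟨pairBits c w, ?_, ?_⟩
      · have hw' : w.length = m x.length := by
          rw [hw, hD, hlen c hc]
        have h3 := hq x.length
        have h4 : 2 ^ P.eval x.length ≤ 2 ^ P.eval (pairBits x s).length := by
          refine Nat.pow_le_pow_right (by norm_num) (eval_mono P ?_)
          rw [length_pairBits]
          omega
        refine le_trans ?_ h4
        rw [length_pairBits, hw', hc, hP]
        simp only [Polynomial.eval_add, Polynomial.eval_C]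
        have h5 : 2 ^ (p.eval x.length + q.eval x.length + 2) =
            4 * (2 ^ p.eval x.length * 2 ^ q.eval x.length) := by
          rw [pow_add, pow_add]
          ring
        have h6 : 2 ^ p.eval x.length ≤ 2 ^ p.eval x.length * 2 ^ q.eval x.length :=
          Nat.le_mul_of_pos_right _ (by positivity)
        have h7 : 2 ^ q.eval x.length ≤ 2 ^ p.eval x.length * 2 ^ q.eval x.length :=
          Nat.le_mul_of_pos_left _ (by positivity)
        have h8 : 1 ≤ 2 ^ p.eval x.length := Nat.one_le_two_pow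
        omega
      · simp only [unpair_pairBits]
        rw [if_pos hc, h2 s hs]
    · rintro ⟨w, _, h1⟩
      split_ifs at h1 with h2
      simp only [List.cons.injEq, and_true] at h1
      have hci := code_iff (ν := ν) (D := D) (st := st) hK
        (r (pairBits x (unpair w).1))
      rw [hlen _ h2] at hci
      rw [hL x _ h2]
      exact hci.2 s _ hs h1

/-- the length of the codes -/
theorem exists_len (R : ℕ → Polynomial ℕ) (e : ℕ) (b : Bool) : ∃ q : Polynomial ℕ,
    ∀ x : List Bool, (b :: code R e x).length = q.eval x.length :=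
  ⟨R e + Polynomial.X + Polynomial.C (e + 3), fun x => by
    unfold code
    simp only [Polynomial.eval_add, Polynomial.eval_X, Polynomial.eval_C, List.length_append,
      List.length_replicate, List.length_cons]
    omega⟩

theorem poly_cons_code (R : ℕ → Polynomial ℕ) (e : ℕ) (b : Bool) :
    Poly (fun x => b :: code R e x) :=
  NPC.Poly.cons (NPC.Poly.const _) (CC.poly_code R e)

/-- **Complements of languages in `NP`.** -/
theorem np_compl (ha : Monotone a) (h0 : st 0 = 0)
    (hst : ∀ k, st (k + 1) < 2 ^ (a (ν (k + 1)) + 1)) (hD : Good D) {L : Set (List Bool)}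
    (hL : IsNP (orc KK ν D st) L) : ∃ q : Polynomial ℕ,
      Advice (IsNP (orc KK ν D st)) (fun n => a (Nat.log 2 (q.eval n)) + 1) Lᶜ := by
  obtain ⟨V, p, ⟨M, hM⟩, hV⟩ := hL
  obtain ⟨e, he⟩ := en_surj (M, p)
  obtain ⟨q, hq⟩ := exists_len qB e true
  refine ⟨q, np_upper KK_local ha h0 hst hD (poly_cons_code qB e true) hq fun x => ?_⟩
  have hz : x ∈ L ↔ UK (orc KK ν D st) (code qB e x) = true := by
    rw [UK_code, hV x]
    unfold Pool.Agent.W2helper58.BR.Acc
    rw [he]
    refine exists_congr fun w => and_congr_right fun _ => ?_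
    rw [hM]
    simp
  rw [Set.mem_compl_iff, hz, Bool.not_eq_true]
  rfl

/-- **Languages in `PSPACE`.** -/
theorem pspace_upper (ha : Monotone a) (h0 : st 0 = 0)
    (hst : ∀ k, st (k + 1) < 2 ^ (a (ν (k + 1)) + 1)) (hD : Good D) {L : Set (List Bool)}
    (hL : IsPSPACE (orc KK ν D st) L) : ∃ q : Polynomial ℕ,
      Advice (IsNP (orc KK ν D st)) (fun n => a (Nat.log 2 (q.eval n)) + 1) L := by
  obtain ⟨e, he⟩ := exists_PK hL
  obtain ⟨q, hq⟩ := exists_len bE e false
  refine ⟨q, np_upper KK_local ha h0 hst hD (poly_cons_code bE e false) hq fun x => ?_⟩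
  rw [he]
  change _ ↔ (!PK (orc KK ν D st) (code bE e x)) = false
  rw [Bool.not_eq_false']

/-- **Languages in `EXPSPACE`.** -/
theorem expspace_upper (ha : Monotone a) (h0 : st 0 = 0)
    (hst : ∀ k, st (k + 1) < 2 ^ (a (ν (k + 1)) + 1)) (hD : Good D) {L : Set (List Bool)}
    (hL : IsEXPSPACE (orc KK ν D st) L) : ∃ q : Polynomial ℕ,
      Advice (IsNEXP (orc KK ν D st)) (fun n => a (q.eval n) + 1) L := by
  obtain ⟨L', p, hL', hL⟩ := hL
  obtain ⟨e, he⟩ := exists_PK hL'
  obtain ⟨q, hq⟩ := exists_len bE e false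
  refine nexp_upper KK_local ha h0 hst hD (poly_cons_code bE e false) hq p fun x c hc => ?_
  rw [hL x c hc, he]
  change _ ↔ (!PK (orc KK ν D st) (code bE e (pairBits x c))) = false
  rw [Bool.not_eq_false']

/-- **Complements of languages in `NEXP`.** -/
theorem nexp_compl (ha : Monotone a) (h0 : st 0 = 0)
    (hst : ∀ k, st (k + 1) < 2 ^ (a (ν (k + 1)) + 1)) (hD : Good D) {L : Set (List Bool)}
    (hL : IsNEXP (orc KK ν D st) L) : ∃ q : Polynomial ℕ,
      Advice (IsNEXP (orc KK ν D st)) (fun n => a (q.eval n) + 1) Lᶜ := by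
  obtain ⟨V, p, hVF, hV⟩ := hL
  have hy1 : Poly (fun y : List Bool => (unpair y).1) := Poly.fst poly_unpair
  have hy2 : Poly (fun y : List Bool => (unpair y).2) := Poly.snd poly_unpair
  -- the padded language
  have hF : IsFP (orc KK ν D st)
      (fun y : List Bool => pairBits (unpair y).1 (unpair (unpair y).2).1) :=
    IsFP.of_poly (H622R2.poly_pairBits hy1 (hy1.comp hy2))
  have hS := IsFP.seq (A := orc KK ν D st) (φ := fun q => q.2)
    (ψ := fun q => if (unpair q.1).1.length = (unpair (unpair q.1).2).2.length then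
      q.2.2 else []) hF hVF (NPC.Poly.snd NPC.Poly.id)
    (NPC.Poly.ite (NPC.Poly.decide_eq
      (NPC.Poly.length (hy1.comp (NPC.Poly.fst NPC.Poly.id)))
      (NPC.Poly.length ((hy2.comp hy2).comp (NPC.Poly.fst NPC.Poly.id))))
      (NPC.Poly.snd (NPC.Poly.snd NPC.Poly.id)) (NPC.Poly.const _))
  obtain ⟨M, hM⟩ := hS
  obtain ⟨e, he⟩ := en_surj (M, (Polynomial.X : Polynomial ℕ))
  obtain ⟨q, hq⟩ := exists_len qB e true
  refine nexp_upper KK_local ha h0 hst hD (poly_cons_code qB e true) hq p fun x c hc => ?_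
  have hz : x ∈ L ↔ UK (orc KK ν D st) (code qB e (pairBits x c)) = true := by
    rw [UK_code, hV x]
    unfold Pool.Agent.W2helper58.BR.Acc
    rw [he]
    simp only [Polynomial.eval_X]
    constructor
    · rintro ⟨w, hw, hVw⟩
      refine ⟨w, ?_, ?_⟩
      · rw [length_pairBits, hw, hc]
        omega
      · rw [hM]
        simp only [unpair_pairBits]
        rw [if_pos (by rw [hw, hc]), hVw]
    · rintro ⟨w, _, hVw⟩
      rw [hM] at hVw
      simp only [unpair_pairBits, Option.some.injEq] at hVw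
      split_ifs at hVw with h1
      exact ⟨w, by rw [h1, hc], hVw⟩
  rw [Set.mem_compl_iff, hz, Bool.not_eq_true]
  rfl

/-- **The oracles.** -/
theorem main (a : ℕ → ℕ) (ha : Monotone a) (ha' : ∀ N, ∃ n ≥ N, a n < n) : ∃ A : Oracle,
    (∃ L, IsNEXP A L ∧ ∀ g : ℕ → ℕ, (∀ n, g n ≤ a n) → ¬ Advice (IsNEXP A) g Lᶜ) ∧
    (∀ L, (IsNEXP A Lᶜ ∨ IsEXPSPACE A L) → ∃ q : Polynomial ℕ,
      Advice (IsNEXP A) (fun n => a (q.eval n) + 1) L) ∧
    (∀ L, (IsNP A Lᶜ ∨ IsPSPACE A L) → ∃ q : Polynomial ℕ,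
      Advice (IsNP A) (fun n => a (Nat.log 2 (q.eval n)) + 1) L) := by
  obtain ⟨ν, hS⟩ := exists_spec ha' en
  obtain ⟨D, st, hD, h0, hst, hW⟩ := limit KK_local hS
  refine ⟨orc KK ν D st, ⟨_, isNEXP_reg _, fun g hg => no_advice hW g hg⟩,
    fun L hL => ?_, fun L hL => ?_⟩
  · rcases hL with hL | hL
    · have := nexp_compl ha h0 hst hD hL
      rwa [compl_compl] at this
    · exact expspace_upper ha h0 hst hD hL
  · rcases hL with hL | hL
    · have := np_compl ha h0 hst hD hL
      rwa [compl_compl] at this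
    · exact pspace_upper ha h0 hst hD hL

end Pool.Agent.W2helper5.OB
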