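import Pool.Agent.W2helper5.OB.Defs

/-!
# The game for one special number
-/

set_option autoImplicit false

namespace Pool.Agent.W2helper5.OB

open Pool.Agent.NPC Pool.Agent.H620R2.Gauge Pool.Agent.W2helper58.NX Pool.Agent.W2helper58.BR
open Pool.Agent.H579R2.Spt

/-- the region of `x` is empty -/
def InE (A : Oracle) (x : List Bool) : Prop :=
  ¬ ∃ y : List Bool, y.length = 2 ^ x.length ∧ A (rq x y) = true

/-- the machine accepts `y` in nondeterministic exponential time -/
def AccE (A : Oracle) (M : Alg) (p : Polynomial ℕ) (y : List Bool) : Prop :=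
  ∃ w : List Bool, w.length = 2 ^ p.eval y.length ∧ M.out A (pairBits w y) = some [true]

/-- a bound for the length of the input together with the certificate -/
def inp (p : Polynomial ℕ) (n : ℕ) : ℕ := 2 * 2 ^ p.eval (3 * n + 1) + 3 * n + 2

/-- a bound for the lengths of the questions -/
noncomputable def qlen (M : Alg) : Polynomial ℕ := M.out_local.choose

theorem qlen_spec (M : Alg) (A : Oracle) (x : List Bool) :
    ∃ Q : Finset (List Bool), Q.card ≤ M.p.eval x.length ∧
      (∀ q ∈ Q, q.length ≤ (qlen M).eval x.length) ∧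
      ∀ A' : Oracle, (∀ q ∈ Q, A' q = A q) → M.out A' x = M.out A x :=
  M.out_local.choose_spec A x

theorem length_inp {p : Polynomial ℕ} {n : ℕ} {x α w : List Bool} (hx : x.length = n)
    (hα : α.length ≤ n) (hw : w.length = 2 ^ p.eval (pairBits x α).length) :
    (pairBits w (pairBits x α)).length ≤ inp p n := by
  have h1 : (pairBits x α).length ≤ 3 * n + 1 := by
    rw [length_pairBits]
    omega
  rw [length_pairBits, hw, inp]
  have h2 : 2 ^ p.eval (pairBits x α).length ≤ 2 ^ p.eval (3 * n + 1) :=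
    Nat.pow_le_pow_right (by norm_num) (eval_mono p h1)
  omega

theorem card_short (a : ℕ) (S : Finset (List Bool)) (hS : ∀ s ∈ S, s.length ≤ a) :
    S.card ≤ 2 ^ (a + 1) - 1 := by
  classical
  have h1 : S ⊆ (Finset.range (a + 1)).biUnion (fun k => BL k) := by
    intro s hs
    rw [Finset.mem_biUnion]
    exact ⟨s.length, Finset.mem_range.2 (by have := hS s hs; omega), mem_BL.2 rfl⟩
  have h2 : ∀ k, (BL k).card = 2 ^ k := fun k => by exact_mod_cast card_BL k
  have h3 : ∑ k ∈ Finset.range (a + 1), 2 ^ k = 2 ^ (a + 1) - 1 := by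
    have := Nat.geomSum_eq (m := 2) le_rfl (a + 1)
    simpa using this
  calc S.card ≤ _ := Finset.card_le_card h1
    _ ≤ ∑ k ∈ Finset.range (a + 1), (BL k).card := Finset.card_biUnion_le
    _ = _ := by simp only [h2, h3]

/-- the witnesses have the right length -/
def Good (D : Dat) : Prop := ∀ z j, (D.wit z j).length = z.length

/-- the data agree for the special numbers below number `k` -/
def Below (ν : ℕ → ℕ) (D D' : Dat) (k : ℕ) : Prop :=
  (∀ i < k, ∀ j, D.reg i j = D'.reg i j) ∧ ∀ z j, ix ν z.length < k → D.wit z j = D'.wit z j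

theorem Below.trans {ν : ℕ → ℕ} {D D' D'' : Dat} {k : ℕ} (h : Below ν D D' k)
    (h' : Below ν D' D'' k) : Below ν D D'' k :=
  ⟨fun i hi j => (h.1 i hi j).trans (h'.1 i hi j),
    fun z j hz => (h.2 z j hz).trans (h'.2 z j hz)⟩

section

variable {K : Oracle → List Bool → Bool} {ν : ℕ → ℕ}

/-- the position of the game after `j` moves -/
structure Pos (K : Oracle → List Bool → Bool) (ν : ℕ → ℕ) (D0 : Dat) (st : ℕ → ℕ) (k a : ℕ)
    (M : Alg) (p : Polynomial ℕ) (j : ℕ) (D : Dat) (F dead : Finset (List Bool)) : Prop where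
  good : Good D
  below : Below ν D0 D k
  cardF : F.card ≤ j * M.p.eval (inp p (ν k))
  lenF : ∀ u ∈ F, u.length ≤ 2 ^ ν (k + 1)
  reg : ∀ l < j, (D.reg k l).1.length = ν k ∧ (D.reg k l).2.length = 2 ^ ν k
  cardD : dead.card = j
  dead : ∀ α ∈ dead, α.length ≤ a ∧ ∃ x w : List Bool, (∃ l < j, (D.reg k l).1 = x) ∧
    w.length = 2 ^ p.eval (pairBits x α).length ∧
    ∀ A' : Oracle, (∀ u ∈ F, A' u = orc K ν D (Function.update st k j) u) →
      M.out A' (pairBits w (pairBits x α)) = some [true]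

/-- no advice of length at most `a` is correct -/
def Win (A : Oracle) (n a : ℕ) (M : Alg) (p : Polynomial ℕ) : Prop :=
  ∀ α : List Bool, α.length ≤ a → ∃ x : List Bool, x.length = n ∧
    ¬ (InE A x ↔ AccE A M p (pairBits x α))

theorem Pos.bad {D0 : Dat} {st : ℕ → ℕ} {k a : ℕ} {M : Alg} {p : Polynomial ℕ} {j : ℕ} {D : Dat}
    {F dead : Finset (List Bool)} (h : Pos K ν D0 st k a M p j D F dead) {α : List Bool}
    (hα : α ∈ dead) : ∃ x : List Bool, x.length = ν k ∧
      ¬ (InE (orc K ν D (Function.update st k j)) x ↔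
        AccE (orc K ν D (Function.update st k j)) M p (pairBits x α)) := by
  obtain ⟨_, x, w, ⟨l, hl, hx⟩, hw, hout⟩ := h.dead α hα
  obtain ⟨h1, h2⟩ := h.reg l hl
  refine ⟨x, by rw [← hx]; exact h1, fun h3 => ?_⟩
  have h4 : AccE (orc K ν D (Function.update st k j)) M p (pairBits x α) :=
    ⟨w, hw, hout _ fun _ _ => rfl⟩
  refine h3.2 h4 ⟨(D.reg k l).2, by rw [h2, ← hx, h1], ?_⟩
  rw [orc_rq]
  refine ⟨by rw [h2, ← hx, h1], k, l, by rw [← hx, h1], by simpa using hl, ?_⟩
  rw [← hx]

theorem step (hν : StrictMono ν) (hK : Local K) {D0 : Dat} {st : ℕ → ℕ} {k a : ℕ} (hk : k ≠ 0)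
    (ha : a < ν k) {M : Alg} {p : Polynomial ℕ}
    (hT : 2 ^ ν k * M.p.eval (inp p (ν k)) < 2 ^ 2 ^ ν k)
    (hB : (qlen M).eval (inp p (ν k)) ≤ 2 ^ ν (k + 1)) {j : ℕ} (hj : j + 1 ≤ 2 ^ ν k) {D : Dat}
    {F dead : Finset (List Bool)} (h : Pos K ν D0 st k a M p j D F dead)
    (hno : ¬ Win (orc K ν D (Function.update st k j)) (ν k) a M p) :
    ∃ D' F' dead', Pos K ν D0 st k a M p (j + 1) D' F' dead' := by
  classical
  unfold Win at hno
  push Not at hno
  obtain ⟨α, hα, hαx⟩ := hno
  have hαd : α ∉ dead := by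
    intro h1
    obtain ⟨x, hx, h2⟩ := h.bad h1
    exact h2 (hαx x hx)
  obtain ⟨x, hx, hxn⟩ := exists_new (ν k) ((List.range j).map fun l => (D.reg k l).1)
    (by rw [List.length_map, List.length_range]; omega)
  have hxn' : ∀ l < j, (D.reg k l).1 ≠ x := by
    intro l hl h1
    exact hxn (List.mem_map.2 ⟨l, List.mem_range.2 hl, h1⟩)
  have hE : InE (orc K ν D (Function.update st k j)) x := by
    rintro ⟨y, _, h1⟩
    rw [orc_rq] at h1
    obtain ⟨_, i, l, h2, h3, h4⟩ := h1
    have h5 : i = k := hν.injective (h2.trans hx)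
    subst h5
    rw [Function.update_self] at h3
    exact hxn' l h3 (by rw [h4])
  obtain ⟨w, hw, hout⟩ := (hαx x hx).1 hE
  have hin := length_inp (p := p) hx (hα.trans ha.le) hw
  obtain ⟨Q, hQ1, hQ2, hQ3⟩ := qlen_spec M (orc K ν D (Function.update st k j))
    (pairBits w (pairBits x α))
  obtain ⟨F', hF'⟩ : ∃ F', F' = F ∪ Q := ⟨_, rfl⟩
  have hcard : F'.card ≤ (j + 1) * M.p.eval (inp p (ν k)) := by
    rw [hF']
    refine (Finset.card_union_le _ _).trans ?_
    have h1 := h.cardF
    have h2 := hQ1.trans (eval_mono M.p hin)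
    rw [Nat.succ_mul]
    omega
  have hcard2 : F'.card < 2 ^ 2 ^ ν k :=
    (hcard.trans (Nat.mul_le_mul_right _ hj)).trans_lt hT
  obtain ⟨y, hy, hyn⟩ := exists_new (2 ^ ν k) (F'.toList.map fun u => (unpair u.tail).2)
    (by rw [List.length_map, Finset.length_toList]; exact hcard2)
  have hwz : ∀ z : List Bool, ∃ v : List Bool, v.length = z.length ∧ (ix ν z.length = k →
      v ∉ F'.toList.map fun u => (unpair (unpair u.tail).2).2) := by
    intro z
    by_cases hz : ix ν z.length = k
    · have h1 := ix_pos (ν := ν) (m := z.length) (by rw [hz]; exact hk)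
      rw [hz] at h1
      obtain ⟨v, hv, hvn⟩ := exists_new z.length
        (F'.toList.map fun u => (unpair (unpair u.tail).2).2)
        (by
          rw [List.length_map, Finset.length_toList]
          exact hcard2.trans_le (Nat.pow_le_pow_right (by norm_num) h1.le))
      exact ⟨v, hv, fun _ => hvn⟩
    · exact ⟨z, rfl, fun h1 => absurd h1 hz⟩
  choose wz hwz1 hwz2 using hwz
  obtain ⟨D', hD'⟩ : ∃ D' : Dat, D' = ⟨fun i l => if i = k ∧ l = j then (x, y) else D.reg i l,
    fun z v => if ix ν z.length = k ∧ v = j + 1 then wz z else D.wit z v⟩ := ⟨_, rfl⟩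
  have hreg : D'.reg k j = (x, y) := by rw [hD']; simp
  have hreg' : ∀ i l, ¬ (i = k ∧ l = j) → D'.reg i l = D.reg i l := by
    intro i l h1
    rw [hD']
    simp only
    rw [if_neg h1]
  have hwit : ∀ z, ix ν z.length = k → D'.wit z (j + 1) = wz z := by
    intro z hz
    rw [hD']
    simp [hz]
  have hwit' : ∀ z v, ¬ (ix ν z.length = k ∧ v = j + 1) → D'.wit z v = D.wit z v := by
    intro z v h1
    rw [hD']
    simp only
    rw [if_neg h1]
  have hA : Agree ν D D' k j :=
    ⟨fun i hi l => (hreg' i l (by omega)).symm, fun z v hz => (hwit' z v (by omega)).symm,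
      fun l hl => (hreg' k l (by omega)).symm, fun z v _ hv => (hwit' z v (by omega)).symm⟩
  have hlen : ∀ u ∈ F', u.length ≤ 2 ^ ν (k + 1) := by
    intro u hu
    rw [hF', Finset.mem_union] at hu
    rcases hu with hu | hu
    · exact h.lenF u hu
    · exact (hQ2 u hu).trans ((eval_mono _ hin).trans hB)
  have hsame : ∀ u ∈ F', orc K ν D (Function.update st k j) u =
      orc K ν D' (Function.update st k (j + 1)) u := by
    intro u hu
    refine dep_ne hν hK hA (fun i hi => ?_) (by simp) (by simp) (hlen u hu) ?_ ?_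
    · rw [Function.update_of_ne hi.ne, Function.update_of_ne hi.ne]
    · intro r hr h1
      rw [hreg] at h1
      refine hyn (List.mem_map.2 ⟨u, Finset.mem_toList.2 hu, ?_⟩)
      rw [hr, List.tail_cons, h1]
    · intro r hr hz h1
      rw [hwit _ hz] at h1
      refine hwz2 _ hz (List.mem_map.2 ⟨u, Finset.mem_toList.2 hu, ?_⟩)
      rw [hr, List.tail_cons, h1]
  refine ⟨D', F', insert α dead, ?_, ?_, hcard, hlen, ?_, ?_, ?_⟩
  · intro z v
    by_cases h1 : ix ν z.length = k ∧ v = j + 1
    · rw [h1.2, hwit z h1.1]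
      exact hwz1 z
    · rw [hwit' z v h1]
      exact h.good z v
  · exact h.below.trans ⟨hA.low_reg, hA.low_wit⟩
  · intro l hl
    rcases Nat.lt_succ_iff_lt_or_eq.1 hl with h1 | h1
    · rw [hreg' k l (by omega)]
      exact h.reg l h1
    · rw [h1, hreg]
      exact ⟨hx, hy⟩
  · rw [Finset.card_insert_of_notMem hαd, h.cardD]
  · intro β hβ
    rcases Finset.mem_insert.1 hβ with hβ | hβ
    · subst hβ
      refine ⟨hα, x, w, ⟨j, Nat.lt_succ_self j, by rw [hreg]⟩, hw, fun A' hA' => ?_⟩
      rw [← hout]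
      refine hQ3 A' fun q hq => ?_
      have hq' : q ∈ F' := by rw [hF']; exact Finset.mem_union_right _ hq
      rw [hA' q hq', hsame q hq']
    · obtain ⟨h1, x', w', ⟨l, hl, hx'⟩, hw', hout'⟩ := h.dead β hβ
      refine ⟨h1, x', w', ⟨l, by omega, by rw [hreg' k l (by omega)]; exact hx'⟩, hw',
        fun A' hA' => ?_⟩
      refine hout' A' fun u hu => ?_
      have hu' : u ∈ F' := by rw [hF']; exact Finset.mem_union_left _ hu
      rw [hA' u hu', hsame u hu']

/-- **One stage.** -/
theorem stage (hν : StrictMono ν) (hK : Local K) {D0 : Dat} (hD0 : Good D0) {st : ℕ → ℕ}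
    {k a : ℕ} (hk : k ≠ 0) (ha : a < ν k) {M : Alg} {p : Polynomial ℕ}
    (hT : 2 ^ ν k * M.p.eval (inp p (ν k)) < 2 ^ 2 ^ ν k)
    (hB : (qlen M).eval (inp p (ν k)) ≤ 2 ^ ν (k + 1)) :
    ∃ (D : Dat) (t : ℕ), Good D ∧ Below ν D0 D k ∧ t < 2 ^ (a + 1) ∧
      Win (orc K ν D (Function.update st k t)) (ν k) a M p := by
  classical
  have hpow : 2 ^ (a + 1) ≤ 2 ^ ν k := Nat.pow_le_pow_right (by norm_num) ha
  have key : ∀ j, j < 2 ^ (a + 1) → (∃ (D : Dat) (t : ℕ), Good D ∧ Below ν D0 D k ∧
      t < 2 ^ (a + 1) ∧ Win (orc K ν D (Function.update st k t)) (ν k) a M p) ∨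
      ∃ D F dead, Pos K ν D0 st k a M p j D F dead := by
    intro j
    induction j with
    | zero =>
      intro _
      refine Or.inr ⟨D0, ∅, ∅, hD0, ⟨fun _ _ _ => rfl, fun _ _ _ => rfl⟩, by simp, by simp,
        by simp, by simp, by simp⟩
    | succ j ih =>
      intro hj
      rcases ih (by omega) with h1 | ⟨D, F, dead, h1⟩
      · exact Or.inl h1
      · by_cases h2 : Win (orc K ν D (Function.update st k j)) (ν k) a M p
        · exact Or.inl ⟨D, j, h1.good, h1.below, by omega, h2⟩
        · exact Or.inr (step hν hK hk ha hT hB (by omega) h1 h2)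
  have hpos : 0 < 2 ^ (a + 1) := by positivity
  rcases key (2 ^ (a + 1) - 1) (by omega) with h1 | ⟨D, F, dead, h1⟩
  · exact h1
  · refine ⟨D, 2 ^ (a + 1) - 1, h1.good, h1.below, by omega, ?_⟩
    intro α hα
    refine h1.bad ?_
    by_contra h2
    have h3 := card_short a (insert α dead) (by
      intro s hs
      rcases Finset.mem_insert.1 hs with rfl | hs
      · exact hα
      · exact (h1.dead s hs).1)
    rw [Finset.card_insert_of_notMem h2, h1.cardD] at h3
    omega

end

end Pool.Agent.W2helper5.OB
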