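import Pool.Agent.W2helper5.OB.Limit
import Pool.Agent.W2helper5.OB.Cls

/-!
# The classes relative to the oracle
-/

set_option autoImplicit false

namespace Pool.Agent.W2helper5.OB

open Pool.Agent.NPC Pool.Agent.H620R2.Gauge Pool.Agent.W2helper58.BR
open Pool.Agent.W2helper58.NX (length_unpair_le)

/-- short certificates -/
theorem isNEXP_of {A : Oracle} {L : Set (List Bool)} {V : List Bool → List Bool}
    (hV : IsFP A V) (p : Polynomial ℕ)
    (h : ∀ x, x ∈ L ↔ ∃ w : List Bool, w.length ≤ 2 ^ p.eval x.length ∧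
      V (pairBits w x) = [true]) : IsNEXP A L := by
  have hy1 : Poly (fun y : List Bool => (unpair y).1) := Poly.fst poly_unpair
  have hy2 : Poly (fun y : List Bool => (unpair y).2) := Poly.snd poly_unpair
  have hF : IsFP A (fun y : List Bool => pairBits (unpair (unpair y).1).1 (unpair y).2) :=
    IsFP.of_poly (H622R2.poly_pairBits (hy1.comp hy1) hy2)
  have hS := IsFP.seq (A := A) (φ := fun q => q.2)
    (ψ := fun q => if (unpair (unpair q.1).1).1.length ≤ 2 ^ p.eval (unpair q.1).2.length then
      q.2.2 else []) hF hV (NPC.Poly.snd NPC.Poly.id)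
    (NPC.Poly.ite (NPC.Poly.decide_le
      (NPC.Poly.length ((hy1.comp hy1).comp (NPC.Poly.fst NPC.Poly.id)))
      (Poly.npow (NPC.Poly.const 2)
        ((UPoly.length (hy2.comp (NPC.Poly.fst NPC.Poly.id))).eval p)))
      (NPC.Poly.snd (NPC.Poly.snd NPC.Poly.id)) (NPC.Poly.const _))
  refine ⟨_, p + Polynomial.C 2, hS, fun x => ?_⟩
  rw [h x]
  have hpow : 2 ^ (p + Polynomial.C 2).eval x.length = 4 * 2 ^ p.eval x.length := by
    rw [Polynomial.eval_add, Polynomial.eval_C, pow_add]
    ring
  constructor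
  · rintro ⟨w, hw, hVw⟩
    have hpos : 1 ≤ 2 ^ p.eval x.length := Nat.one_le_two_pow
    refine ⟨pairBits w (List.replicate (4 * 2 ^ p.eval x.length - (2 * w.length + 1)) false),
      ?_, ?_⟩
    · rw [hpow, length_pairBits, List.length_replicate]
      omega
    · simp only [unpair_pairBits]
      rw [if_pos hw]
      exact hVw
  · rintro ⟨w, _, hVw⟩
    simp only [unpair_pairBits] at hVw
    split_ifs at hVw with h1
    exact ⟨(unpair w).1, h1, hVw⟩

/-- without advice -/
theorem advice_of {A : Oracle} {L : Set (List Bool)} (hL : IsNEXP A L) :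
    Advice (IsNEXP A) (fun _ => 0) L := by
  obtain ⟨V, p, hV, hL⟩ := hL
  have hy1 : Poly (fun y : List Bool => (unpair y).1) := Poly.fst poly_unpair
  have hy2 : Poly (fun y : List Bool => (unpair y).2) := Poly.snd poly_unpair
  have hF : IsFP A (fun y : List Bool => pairBits (unpair y).1 (unpair (unpair y).2).1) :=
    IsFP.of_poly (H622R2.poly_pairBits hy1 (hy1.comp hy2))
  have hS := IsFP.seq (A := A) (φ := fun q => q.2)
    (ψ := fun q => if (unpair q.1).1.length = 2 ^ p.eval (unpair (unpair q.1).2).1.length then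
      q.2.2 else []) hF hV (NPC.Poly.snd NPC.Poly.id)
    (NPC.Poly.ite (NPC.Poly.decide_eq
      (NPC.Poly.length (hy1.comp (NPC.Poly.fst NPC.Poly.id)))
      (Poly.npow (NPC.Poly.const 2)
        ((UPoly.length ((hy1.comp hy2).comp (NPC.Poly.fst NPC.Poly.id))).eval p)))
      (NPC.Poly.snd (NPC.Poly.snd NPC.Poly.id)) (NPC.Poly.const _))
  refine ⟨{y | (unpair y).1 ∈ L}, fun _ => [], isNEXP_of hS p fun y => ?_, fun _ => rfl,
    fun x => ?_⟩
  · rw [Set.mem_ofPred_eq, hL]
    constructor
    · rintro ⟨w, hw, hVw⟩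
      refine ⟨w, ?_, ?_⟩
      · rw [hw]
        exact Nat.pow_le_pow_right (by norm_num) (eval_mono p (length_unpair_le y).1)
      · simp only [unpair_pairBits]
        rw [if_pos hw]
        exact hVw
    · rintro ⟨w, _, hVw⟩
      simp only [unpair_pairBits] at hVw
      split_ifs at hVw with h1
      exact ⟨w, h1, hVw⟩
  · rw [Set.mem_ofPred_eq, unpair_pairBits]

section

variable {ν : ℕ → ℕ} {D : Dat} {st : ℕ → ℕ}

/-- the set of the nonempty regions is in `NEXP` -/
theorem isNEXP_reg (A : Oracle) : IsNEXP A {x | ¬ InE A x} := by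
  obtain ⟨Q, hQ⟩ : ∃ Q : List Bool → List (List Bool),
      Q = fun y => [rq (unpair y).2 (unpair y).1] := ⟨_, rfl⟩
  have hy1 : Poly (fun y : List Bool => (unpair y).1) := Poly.fst poly_unpair
  have hy2 : Poly (fun y : List Bool => (unpair y).2) := Poly.snd poly_unpair
  have hQp : Poly Q := by
    rw [hQ]
    unfold rq
    exact NPC.Poly.cons (NPC.Poly.cons (NPC.Poly.const _) (H622R2.poly_pairBits hy2 hy1))
      (NPC.Poly.const _)
  have hV := IsFP.tt (A := A) (H := fun q => q.2) hQp (NPC.Poly.snd NPC.Poly.id)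
  refine ⟨_, Polynomial.X, hV, fun x => ?_⟩
  rw [Set.mem_ofPred_eq, InE, not_not, Polynomial.eval_X]
  refine exists_congr fun y => and_congr_right fun _ => ?_
  rw [hQ]
  simp only [unpair_pairBits, List.map_cons, List.map_nil, List.cons.injEq, and_true]

/-- no short advice for the set of the empty regions -/
theorem no_advice {A : Oracle} {a : ℕ → ℕ} {ν : ℕ → ℕ}
    (h : ∀ k, Win A (ν (k + 1)) (a (ν (k + 1))) (en k).1 (en k).2) (g : ℕ → ℕ)
    (hg : ∀ n, g n ≤ a n) : ¬ Advice (IsNEXP A) g {x | ¬ InE A x}ᶜ := by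
  rintro ⟨B, f, ⟨V, p, ⟨M, hM⟩, hV⟩, hf, hL⟩
  obtain ⟨k, hk⟩ := en_surj (M, p)
  obtain ⟨x, hx, h1⟩ := h k (f (ν (k + 1))) (by rw [hf]; exact hg _)
  apply h1
  rw [hk]
  have h2 := hL x
  rw [Set.mem_compl_iff, Set.mem_ofPred_eq, not_not, hV, hx] at h2
  rw [h2]
  unfold AccE
  refine exists_congr fun w => and_congr_right fun _ => ?_
  rw [hM]
  simp

theorem valB_false : ∀ n : ℕ, valB (List.replicate n false) = 0 := by
  intro n
  induction n with
  | zero => rfl
  | succ n ih => rw [List.replicate_succ, valB_cons, ih]; simp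

/-- the number `v`, written with `m` bits -/
def wr (m v : ℕ) : List Bool := v.bits ++ List.replicate (m - v.size) false

theorem valB_wr (m v : ℕ) : valB (wr m v) = v := by
  rw [wr, valB_append, valB_bits, valB_false]
  simp

theorem length_wr {m v : ℕ} (h : v < 2 ^ m) : (wr m v).length = m := by
  have h1 : v.size ≤ m := Nat.size_le.2 h
  rw [wr, List.length_append, List.length_replicate, Nat.size_eq_bits_len]
  omega

/-- the codes are correct -/
theorem code_iff {K : Oracle → List Bool → Bool} (hK : Local K) (z : List Bool) :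
    (K (orc K ν D st) z = false ↔ ∃ w : List Bool, w = D.wit z (st (ix ν z.length)) ∧
      ∀ s, valB s = st (ix ν z.length) → orc K ν D st (cd z s w) = true) ∧
    ∀ s w, valB s = st (ix ν z.length) → orc K ν D st (cd z s w) = true →
      K (orc K ν D st) z = false := by
  have key : ∀ s w, valB s = st (ix ν z.length) → (orc K ν D st (cd z s w) = true ↔
      w = D.wit z (st (ix ν z.length)) ∧ K (orc K ν D st) z = false) := by
    intro s w hs
    rw [orc_cd hK, hs, Function.update_eq_self]
    simp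
  constructor
  · constructor
    · intro h
      exact ⟨_, rfl, fun s hs => (key s _ hs).2 ⟨rfl, h⟩⟩
    · rintro ⟨w, _, h⟩
      exact ((key (wr 0 (st (ix ν z.length))) w (valB_wr _ _)).1 (h _ (valB_wr _ _))).2
  · intro s w hs h
    exact ((key s w hs).1 h).2

end

end Pool.Agent.W2helper5.OB
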